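import Pool.Agent.Helper97.HW.R2
import Pool.Agent.Helper38.HW.R1

/-!
# Block R3 of MP_074879_pr: the largest admissible tilt, and one step of the construction
-/

open Finset

namespace HW

section R
variable (w : ℕ → ℝ) (K : ℕ) (θ : ℝ) (e L : ℕ)

/-- `D(x) - ε ≤ V(K)/x` -/
lemma Dp_le_eps_add (hw : ∀ k, 0 ≤ w k) (hs : ∀ k, K ≤ k → w k = 0) (x : ℕ) (hx : 1 ≤ x) :
    Dp w x ≤ epsL w K + Vp w K / x := by
  have hx0 : (0 : ℝ) < x := by exact_mod_cast hx
  -- extend both sums to a common range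
  set R := x + K + 1 with hR
  have h1 : epsL w K = ∑ k ∈ range R, (1 - (k : ℝ)) * w k := by
    unfold epsL
    refine Finset.sum_subset (Finset.range_subset_range.2 (by omega)) ?_
    intro k _ hk
    rw [hs k (by simpa using hk), mul_zero]
  have h2 : Dp w x + ∑ k ∈ Ico (x + 1) R, (1 - (k : ℝ)) * w k
      = ∑ k ∈ range R, (1 - (k : ℝ)) * w k := by
    unfold Dp
    rw [Finset.range_eq_Ico, Finset.range_eq_Ico]
    exact Finset.sum_Ico_consecutive _ (by omega) (by omega)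
  have h3 : Vp w K = ∑ k ∈ Ico 2 R, ((k : ℝ) - 1) ^ 2 * w k := by
    unfold Vp
    refine Finset.sum_subset (Finset.Ico_subset_Ico le_rfl (by omega)) ?_
    intro k hk hk'
    simp only [mem_Ico, not_and, not_lt] at hk hk'
    rw [hs k (by have := hk' hk.1; omega), mul_zero]
  have h4 : ∑ k ∈ Ico (x + 1) R, ((k : ℝ) - 1) ^ 2 * w k ≤ Vp w K := by
    rw [h3]
    refine Finset.sum_le_sum_of_subset_of_nonneg (Finset.Ico_subset_Ico (by omega) le_rfl) ?_
    intro k _ _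
    exact mul_nonneg (sq_nonneg _) (hw k)
  have h5 : -∑ k ∈ Ico (x + 1) R, (1 - (k : ℝ)) * w k
      ≤ (∑ k ∈ Ico (x + 1) R, ((k : ℝ) - 1) ^ 2 * w k) / x := by
    rw [← Finset.sum_neg_distrib, Finset.sum_div]
    refine Finset.sum_le_sum ?_
    intro k hk
    have hk1 : x + 1 ≤ k := (mem_Ico.1 hk).1
    have hk2 : (x : ℝ) ≤ (k : ℝ) - 1 := by
      have : ((x + 1 : ℕ) : ℝ) ≤ k := by exact_mod_cast hk1
      push_cast at this
      linarith
    rw [le_div_iff₀ hx0]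
    have h6 : 0 ≤ ((k : ℝ) - 1) * w k := mul_nonneg (by linarith) (hw k)
    nlinarith [mul_nonneg (sub_nonneg.2 hk2) h6]
  have h7 : (∑ k ∈ Ico (x + 1) R, ((k : ℝ) - 1) ^ 2 * w k) / x ≤ Vp w K / x :=
    div_le_div_of_nonneg_right h4 hx0.le
  linarith

/-- R3: with the largest admissible tilts `Φ` is at least `e/20` -/
theorem Inv.Phi_max (h : Inv w K θ e L) (hl : 1 ≤ 4 * (θ ^ 2 * 2 ^ e)) :
    (e : ℝ) / 20 ≤ Phi w K e := by
  obtain ⟨he0, he1, he8⟩ := Inv.eps_pow w K θ e L h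
  set ε := epsL w K with hε
  have hθ := h.θ_pos
  have hLe : 10 ^ 15 ≤ e := by
    calc 10 ^ 15 = 1000 ^ 5 := by norm_num
      _ ≤ L ^ 5 := Nat.pow_le_pow_left h.L_ge 5
      _ ≤ e := h.L_le
  set I : Finset ℕ := Icc ((e + 3) / 2) (7 * e / 8) with hI
  have hsub : I ⊆ range (e + 1) := by
    intro a ha
    rw [hI, mem_Icc] at ha
    rw [mem_range]
    omega
  -- facts for the scales in `I`
  have hmem : ∀ a ∈ I, (2 : ℝ) ^ a ≤ ε * 2 ^ e ∧ 1 ≤ θ * 2 ^ a := by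
    intro a ha
    rw [hI, mem_Icc] at ha
    constructor
    · have h1 : ((2 : ℝ) ^ a) ^ 8 ≤ (ε * 2 ^ e) ^ 8 := by
        rw [← pow_mul, mul_pow, ← pow_mul]
        calc (2 : ℝ) ^ (a * 8) ≤ 2 ^ (e * 7) := pow_le_pow_right₀ (by norm_num) (by omega)
          _ ≤ (ε ^ 8 * 2 ^ e) * 2 ^ (e * 7) := le_mul_of_one_le_left (by positivity) he8
          _ = ε ^ 8 * 2 ^ (e * 8) := by
            rw [mul_assoc, ← pow_add]
            congr 2
            ring
      exact le_of_pow_le_pow_left₀ (by norm_num) (by positivity) h1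
    · have h1 : (1 : ℝ) ^ 2 ≤ (θ * 2 ^ a) ^ 2 := by
        rw [mul_pow, ← pow_mul]
        calc (1 : ℝ) ^ 2 = 1 := one_pow 2
          _ ≤ 4 * (θ ^ 2 * 2 ^ e) := hl
          _ = θ ^ 2 * 2 ^ (e + 2) := by rw [pow_add]; ring
          _ ≤ θ ^ 2 * 2 ^ (a * 2) :=
            mul_le_mul_of_nonneg_left (pow_le_pow_right₀ (by norm_num) (by omega)) (by positivity)
      exact le_of_pow_le_pow_left₀ (by norm_num) (by positivity) h1
  have hD : ∀ a ∈ I, Dp w (2 ^ a) ≤ 507 / 500 * ε := by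
    intro a ha
    have h1 := Dp_le_eps_add w K h.law.nonneg h.law.supp (2 ^ a) Nat.one_le_two_pow
    have h2 : Vp w K / ((2 ^ a : ℕ) : ℝ) ≤ 7 / 500 * ε := by
      push_cast
      rw [div_le_iff₀ (by positivity)]
      calc Vp w K ≤ 7 / 500 * (ε / θ) := h.v2
        _ ≤ 7 / 500 * (ε * 2 ^ a) := by
          refine mul_le_mul_of_nonneg_left ?_ (by norm_num)
          rw [div_le_iff₀ hθ]
          calc ε = ε * 1 := (mul_one _).symm
            _ ≤ ε * (θ * 2 ^ a) := mul_le_mul_of_nonneg_left (hmem a ha).2 he0.le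
            _ = ε * 2 ^ a * θ := by ring
        _ = 7 / 500 * ε * 2 ^ a := by ring
    linarith
  have hDpos : ∀ a, 0 < Dp w (2 ^ a) := fun a =>
    lt_of_lt_of_le he0 (eps_le_Dp w K h.law.nonneg h.law.supp (2 ^ a) Nat.one_le_two_pow)
  have hsm : (I.card : ℝ) * (1 / (507 / 500 * ε)) ≤ hsum w e (ε * 2 ^ e) := by
    unfold hsum
    rw [← nsmul_eq_mul, ← Finset.sum_const]
    calc ∑ _a ∈ I, 1 / (507 / 500 * ε)
        ≤ ∑ a ∈ I, (if (2 : ℝ) ^ a ≤ ε * 2 ^ e then 1 / Dp w (2 ^ a) else 0) := by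
          refine Finset.sum_le_sum fun a ha => ?_
          rw [if_pos (hmem a ha).1]
          exact one_div_le_one_div_of_le (hDpos a) (hD a ha)
      _ ≤ ∑ a ∈ range (e + 1), (if (2 : ℝ) ^ a ≤ ε * 2 ^ e then 1 / Dp w (2 ^ a) else 0) := by
          refine Finset.sum_le_sum_of_subset_of_nonneg hsub fun a _ _ => ?_
          split_ifs
          · exact (one_div_pos.2 (hDpos a)).le
          · exact le_rfl
  have hcard : (3 * (e : ℝ) / 8 - 2) ≤ (I.card : ℝ) := by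
    rw [hI, Nat.card_Icc]
    have h1 : 3 * e ≤ 8 * (7 * e / 8 + 1 - (e + 3) / 2) + 16 := by omega
    have h2 : (3 * (e : ℝ)) ≤ 8 * ((7 * e / 8 + 1 - (e + 3) / 2 : ℕ) : ℝ) + 16 := by exact_mod_cast h1
    linarith
  have hPhi : (I.card : ℝ) * (500 / 507) ≤ Phi w K e := by
    unfold Phi
    calc (I.card : ℝ) * (500 / 507) = ε * ((I.card : ℝ) * (1 / (507 / 500 * ε))) := by
          field_simp
      _ ≤ ε * hsum w e (ε * 2 ^ e) := mul_le_mul_of_nonneg_left hsm he0.le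
  have he : (10 : ℝ) ^ 15 ≤ e := by exact_mod_cast hLe
  nlinarith

/-- STEP (from R0-R3): the tilt can be chosen so that `Φ` follows a given target -/
theorem Inv.step (h : Inv w K θ e L) (L' : ℕ) (hL' : L' = L ∨ L' = L + 1)
    (hLe : L' ^ 5 ≤ e + L) (G : ℝ) (hG : 2 ≤ G) (hG' : 20 * G ≤ ((e + L : ℕ) : ℝ)) :
    ∃ θ' : ℝ, Inv (nextW w K θ e L θ') (nextK w K e L) θ' (e + L) L' ∧
      epsL (nextW w K θ e L θ') (nextK w K e L) ≤
        epsL w K * (θ' * (epsL (nextW w K θ e L θ') (nextK w K e L) * 2 ^ (e + L))) ∧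
      G ≤ Phi (nextW w K θ e L θ') (nextK w K e L) (e + L) ∧
      Phi (nextW w K θ e L θ') (nextK w K e L) (e + L) ≤
        max (2 * G) ((1 - 1 / (4000 * (L : ℝ) ^ 3)) * Phi w K e + L + 1) := by
  obtain ⟨he0, he1, he8⟩ := Inv.eps_pow w K θ e L h
  set ε := epsL w K with hε
  have hn : (0 : ℝ) < 2 ^ (e + L) := by positivity
  have hL1 : 1 ≤ L' := by
    have := h.L_ge
    omega
  have hL1' : (1 : ℝ) ≤ L' := by exact_mod_cast hL1
  have hεn : 0 < ε * 2 ^ (e + L) := mul_pos he0 hn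
  -- the grid of tilts
  obtain ⟨T, hT⟩ : ∃ T : ℕ → ℝ, ∀ i, T i = 2 ^ i * (L' / (ε * 2 ^ (e + L))) := ⟨_, fun _ => rfl⟩
  have hTpos : ∀ i, 0 < T i := fun i => by
    rw [hT]
    positivity
  have hTn : ∀ i, T i * (ε * 2 ^ (e + L)) = 2 ^ i * L' := fun i => by
    rw [hT]
    field_simp
  have hTge : ∀ i, (L' : ℝ) ≤ T i * (ε * 2 ^ (e + L)) := fun i => by
    rw [hTn]
    exact le_mul_of_one_le_left (by positivity) (one_le_pow₀ (by norm_num))
  have hTs : ∀ i, T (i + 1) = 2 * T i := fun i => by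
    rw [hT, hT, pow_succ]
    ring
  -- the first tilt is admissible
  have h0 : T 0 ^ 2 * 2 ^ (e + L) ≤ 1 := by
    have h1 : (L' : ℝ) ^ 2 ≤ ε ^ 2 * 2 ^ (e + L) := by
      have h2 : ((L' : ℝ) ^ 2) ^ 4 ≤ (ε ^ 2 * 2 ^ (e + L)) ^ 4 := by
        have h3 : (L' : ℝ) ^ 10 ≤ ((2 : ℝ) ^ (e + L)) ^ 2 := by
          have h4 : L' ^ 10 ≤ (2 ^ (e + L)) ^ 2 := by
            calc L' ^ 10 = (L' ^ 5) ^ 2 := by ring
              _ ≤ (e + L) ^ 2 := Nat.pow_le_pow_left hLe 2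
              _ ≤ (2 ^ (e + L)) ^ 2 := Nat.pow_le_pow_left (Nat.lt_two_pow_self).le 2
          exact_mod_cast h4
        calc ((L' : ℝ) ^ 2) ^ 4 = (L' : ℝ) ^ 8 := by ring
          _ ≤ (L' : ℝ) ^ 10 := pow_le_pow_right₀ hL1' (by norm_num)
          _ ≤ ((2 : ℝ) ^ (e + L)) ^ 2 := h3
          _ = 2 ^ (2 * e + 2 * L) := by rw [← pow_mul]; congr 1; ring
          _ ≤ 2 ^ (3 * e + 4 * L) := pow_le_pow_right₀ (by norm_num) (by omega)
          _ ≤ (ε ^ 8 * 2 ^ e) * 2 ^ (3 * e + 4 * L) := le_mul_of_one_le_left (by positivity) he8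
          _ = ε ^ 8 * 2 ^ ((e + L) * 4) := by
            rw [mul_assoc, ← pow_add]
            congr 2
            ring
          _ = (ε ^ 2 * 2 ^ (e + L)) ^ 4 := by
            rw [mul_pow, ← pow_mul, ← pow_mul]
      exact le_of_pow_le_pow_left₀ (by norm_num) (by positivity) h2
    rw [hT, pow_zero, one_mul, div_pow, div_mul_eq_mul_div, div_le_one (by positivity)]
    calc (L' : ℝ) ^ 2 * 2 ^ (e + L) ≤ (ε ^ 2 * 2 ^ (e + L)) * 2 ^ (e + L) :=
          mul_le_mul_of_nonneg_right h1 hn.le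
      _ = (ε * 2 ^ (e + L)) ^ 2 := by ring
  -- tilts of the grid are eventually not admissible
  have hex : ∃ i, ¬ T i ^ 2 * 2 ^ (e + L) ≤ 1 := by
    obtain ⟨i, hi⟩ := pow_unbounded_of_one_lt (1 / T 0) (by norm_num : (1 : ℝ) < 2)
    refine ⟨i, not_le.2 ?_⟩
    have h1 : T i = 2 ^ i * T 0 := by
      rw [hT, hT]
      simp
    have h2 : 1 < T i := by
      rw [h1]
      rwa [div_lt_iff₀ (hTpos 0)] at hi
    have h3 : (1 : ℝ) ≤ 2 ^ (e + L) := one_le_pow₀ (by norm_num)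
    nlinarith
  classical
  have hN0 : Nat.find hex ≠ 0 := by
    intro hN
    have := Nat.find_spec hex
    rw [hN] at this
    exact this h0
  obtain ⟨m, hm⟩ := Nat.exists_eq_succ_of_ne_zero hN0
  have hm1 : T m ^ 2 * 2 ^ (e + L) ≤ 1 := by
    by_contra hc
    have := Nat.find_min' hex hc
    omega
  have hm2 : 1 ≤ 4 * (T m ^ 2 * 2 ^ (e + L)) := by
    have h1 := Nat.find_spec hex
    rw [hm, Nat.succ_eq_add_one, hTs] at h1
    push Not at h1
    nlinarith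
  have hnext := fun i (hi : T i ^ 2 * 2 ^ (e + L) ≤ 1) =>
    Inv.next w K θ e L h L' hL' hLe (T i) (hTge i) hi
  -- the conclusion, apart from the bounds for `Phi`, for any admissible tilt of the grid
  have heps : ∀ i, T i ^ 2 * 2 ^ (e + L) ≤ 1 →
      epsL (nextW w K θ e L (T i)) (nextK w K e L) ≤
        ε * (T i * (epsL (nextW w K θ e L (T i)) (nextK w K e L) * 2 ^ (e + L))) := by
    intro i hi
    have h1 := (hnext i hi).2.2
    have h2 : 0 ≤ epsL (nextW w K θ e L (T i)) (nextK w K e L) :=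
      le_trans (by positivity) h1
    have h3 : 1 ≤ T i * (ε * 2 ^ (e + L)) := le_trans hL1' (hTge i)
    calc epsL (nextW w K θ e L (T i)) (nextK w K e L)
        ≤ epsL (nextW w K θ e L (T i)) (nextK w K e L) * (T i * (ε * 2 ^ (e + L))) :=
          le_mul_of_one_le_right h2 h3
      _ = _ := by ring
  have hQ : ∃ i, T i ^ 2 * 2 ^ (e + L) ≤ 1 ∧
      G ≤ Phi (nextW w K θ e L (T i)) (nextK w K e L) (e + L) := by
    refine ⟨m, hm1, ?_⟩
    have h1 := Inv.Phi_max _ _ _ _ _ (hnext m hm1).1 hm2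
    linarith
  obtain ⟨hi1, hi2⟩ := Nat.find_spec hQ
  set i := Nat.find hQ with hidef
  refine ⟨T i, (hnext i hi1).1, heps i hi1, hi2, ?_⟩
  rcases Nat.eq_zero_or_pos i with hi0 | hi0
  · rw [hi0] at hi1 ⊢
    have h1 : (L' : ℝ) = T 0 * (epsL w K * 2 ^ (e + L)) := by
      rw [← hε, hTn]
      simp
    exact le_trans (Inv.Phi_min w K θ e L h L' hL' hLe (T 0) h1).2 (le_max_right _ _)
  · obtain ⟨k, hk⟩ := Nat.exists_eq_succ_of_ne_zero hi0.ne'
    rw [Nat.succ_eq_add_one] at hk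
    have h2 : (2 * T k) ^ 2 * 2 ^ (e + L) ≤ 1 := by
      rw [← hTs, ← hk]
      exact hi1
    have h3 : T k ^ 2 * 2 ^ (e + L) ≤ 1 := by
      refine le_trans (mul_le_mul_of_nonneg_right ?_ hn.le) h2
      have := hTpos k
      nlinarith
    have h4 : Phi (nextW w K θ e L (T k)) (nextK w K e L) (e + L) < G := by
      by_contra hc
      push Not at hc
      have := Nat.find_min' hQ ⟨h3, hc⟩
      omega
    have h5 := (Inv.Phi_double w K θ e L h L' hL' hLe (T k) (hTge k) h2).2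
    rw [hk, hTs]
    refine le_trans h5 (le_trans ?_ (le_max_left _ _))
    linarith

end R

end HW
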